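import Mathlib
import Pool.Agent.Helper540.Near

set_option autoImplicit false

namespace Pool.Agent.Results.MP_eccde5_an.AllOffDiagonal

open Metric Set Filter Topology Pool.Agent.Helper540


section RealPart

variable {ι : Type*} [Fintype ι]

/-- two-fold weighted AM-GM -/
theorem real_ineq {lam : ι → ℝ} (hl : ∀ l, 0 < lam l) {b : ι → ℕ} {m : ℕ} (hm : 2 ≤ m)
    {Λ : ℝ} (hΛ : 0 < Λ) {s : ι → ℝ} (hs : ∀ l, s l * (2 * lam l + (m - 1) * Λ) = b l * Λ)
    (hs1 : ∑ l, s l = 1) (hb : ∑ l, b l = m + 1) {t : ι → ℝ} (ht : ∀ l, 0 ≤ t l) :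
    Λ * ∏ l, t l ^ b l ≤
      (∏ l, Real.sqrt (s l) ^ b l) * ((∑ l, lam l * t l ^ 2) * Real.sqrt (∑ l, t l ^ 2) ^ (m - 1)) := by
  classical
  have hm' : (2 : ℝ) ≤ m := by exact_mod_cast hm
  have hden : ∀ l, 0 < 2 * lam l + (m - 1) * Λ := fun l => by
    have := hl l
    have h2 : 0 < (m - 1) * Λ := mul_pos (by linarith) hΛ
    linarith
  have hs0 : ∀ l, 0 ≤ s l := by
    intro l
    have : s l = b l * Λ / (2 * lam l + (m - 1) * Λ) := by
      rw [eq_div_iff (hden l).ne', hs]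
    rw [this]
    have := hden l
    positivity
  have hsz : ∀ l, b l = 0 → s l = 0 := by
    intro l h
    have h1 := hs l
    rw [h] at h1
    simp only [Nat.cast_zero, zero_mul, mul_eq_zero] at h1
    exact h1.resolve_right (hden l).ne'
  have hspos : ∀ l, b l ≠ 0 → 0 < s l := by
    intro l h
    have : s l = b l * Λ / (2 * lam l + (m - 1) * Λ) := by
      rw [eq_div_iff (hden l).ne', hs]
    rw [this]
    have := hden l
    have : (0 : ℝ) < b l := by exact_mod_cast Nat.pos_of_ne_zero h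
    positivity
  by_cases h0 : ∃ l, b l ≠ 0 ∧ t l = 0
  · obtain ⟨l, h1, h2⟩ := h0
    have : ∏ l, t l ^ b l = 0 := Finset.prod_eq_zero (Finset.mem_univ l) (by rw [h2, zero_pow h1])
    rw [this, mul_zero]
    have : 0 ≤ ∑ l, lam l * t l ^ 2 := Finset.sum_nonneg fun l _ => by have := hl l; positivity
    have : 0 ≤ ∏ l, Real.sqrt (s l) ^ b l := Finset.prod_nonneg fun l _ => by positivity
    positivity
  push Not at h0
  have htpos : ∀ l, b l ≠ 0 → 0 < t l := fun l h => (ht l).lt_of_ne' (h0 l h)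
  set S : Finset ι := Finset.univ.filter fun l => b l ≠ 0 with hS
  have hmemS : ∀ l, l ∈ S ↔ b l ≠ 0 := by intro l; simp [hS]
  have hsumS : ∀ f : ι → ℝ, (∀ l, b l = 0 → f l = 0) → ∑ l ∈ S, f l = ∑ l, f l := by
    intro f hf
    apply Finset.sum_subset (Finset.subset_univ _)
    intro l _ hl
    rw [hmemS, not_not] at hl
    exact hf l hl
  have hprodS : ∀ f : ι → ℝ, ∏ l ∈ S, f l ^ b l = ∏ l, f l ^ b l := by
    intro f
    apply Finset.prod_subset (Finset.subset_univ _)
    intro l _ hl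
    rw [hmemS, not_not] at hl
    rw [hl, pow_zero]
  have hlams : ∑ l, lam l * s l = Λ := by
    have h1 : ∑ l, s l * (2 * lam l + (m - 1) * Λ) = ∑ l, (b l : ℝ) * Λ :=
      Finset.sum_congr rfl fun l _ => hs l
    have h2 : ∑ l, s l * (2 * lam l + (m - 1) * Λ) =
        2 * ∑ l, lam l * s l + (m - 1) * Λ * ∑ l, s l := by
      rw [Finset.mul_sum, Finset.mul_sum, ← Finset.sum_add_distrib]
      exact Finset.sum_congr rfl fun l _ => by ring
    have h3 : ∑ l, (b l : ℝ) * Λ = (m + 1) * Λ := by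
      rw [← Finset.sum_mul]
      congr 1
      exact_mod_cast hb
    rw [h2, h3, hs1] at h1
    linarith
  set z : ι → ℝ := fun l => t l ^ 2 / s l with hz
  have hzpos : ∀ l ∈ S, 0 < z l := by
    intro l hl
    rw [hmemS] at hl
    have := hspos l hl
    have := htpos l hl
    positivity
  have A1 := Real.geom_mean_le_arith_mean_weighted S (fun l => lam l * s l / Λ) z
    (fun l _ => by have := hl l; have := hs0 l; positivity)
    (by
      rw [hsumS _ (fun l h => by simp [hsz l h]), ← Finset.sum_div, hlams, div_self hΛ.ne'])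
    (fun l hl => (hzpos l hl).le)
  have A2 := Real.geom_mean_le_arith_mean_weighted S s z
    (fun l _ => hs0 l) (by rw [hsumS _ (fun l h => hsz l h), hs1]) (fun l hl => (hzpos l hl).le)
  have B1 : ∑ l ∈ S, lam l * s l / Λ * z l ≤ (∑ l, lam l * t l ^ 2) / Λ := by
    rw [Finset.sum_div]
    calc ∑ l ∈ S, lam l * s l / Λ * z l = ∑ l ∈ S, lam l * t l ^ 2 / Λ := by
          apply Finset.sum_congr rfl
          intro l hl
          rw [hmemS] at hl
          have := (hspos l hl).ne'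
          simp only [hz]
          field_simp
      _ ≤ _ := by
          apply Finset.sum_le_sum_of_subset_of_nonneg (Finset.subset_univ _)
          intro l _ _
          have := hl l
          positivity
  have B2 : ∑ l ∈ S, s l * z l ≤ ∑ l, t l ^ 2 := by
    calc ∑ l ∈ S, s l * z l = ∑ l ∈ S, t l ^ 2 := by
          apply Finset.sum_congr rfl
          intro l hl
          rw [hmemS] at hl
          have := (hspos l hl).ne'
          simp only [hz]
          field_simp
      _ ≤ _ := by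
          apply Finset.sum_le_sum_of_subset_of_nonneg (Finset.subset_univ _)
          intro l _ _
          positivity
  set N : ℝ := ∑ l, t l ^ 2 with hN
  have hN0 : 0 ≤ N := Finset.sum_nonneg fun l _ => by positivity
  have C1 : ∏ l ∈ S, z l ^ (lam l * s l / Λ) ≤ (∑ l, lam l * t l ^ 2) / Λ := A1.trans B1
  have C2 : ∏ l ∈ S, z l ^ s l ≤ N := A2.trans B2
  have P2 : 0 ≤ ∏ l ∈ S, z l ^ s l := Finset.prod_nonneg fun l hl =>
    Real.rpow_nonneg (hzpos l hl).le _
  have P1 : 0 ≤ ∏ l ∈ S, z l ^ (lam l * s l / Λ) := Finset.prod_nonneg fun l hl =>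
    Real.rpow_nonneg (hzpos l hl).le _
  have C3 : (∏ l ∈ S, z l ^ s l) ^ (((m : ℝ) - 1) / 2) ≤ Real.sqrt N ^ (m - 1) := by
    have h1 : Real.sqrt N ^ (m - 1) = N ^ (((m : ℝ) - 1) / 2) := by
      rw [Real.sqrt_eq_rpow, ← Real.rpow_natCast, ← Real.rpow_mul hN0]
      congr 1
      rw [Nat.cast_sub (by omega)]
      push_cast
      ring
    rw [h1]
    exact Real.rpow_le_rpow P2 C2 (by linarith)
  have C4 : (∏ l ∈ S, z l ^ (lam l * s l / Λ)) * (∏ l ∈ S, z l ^ s l) ^ (((m : ℝ) - 1) / 2) =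
      ∏ l ∈ S, (t l / Real.sqrt (s l)) ^ b l := by
    rw [← Real.finsetProd_rpow _ _ (fun l hl => Real.rpow_nonneg (hzpos l hl).le _),
      ← Finset.prod_mul_distrib]
    apply Finset.prod_congr rfl
    intro l hl
    have hz1 := hzpos l hl
    rw [hmemS] at hl
    have hsp := hspos l hl
    rw [← Real.rpow_mul hz1.le, ← Real.rpow_add hz1]
    have e1 : lam l * s l / Λ + s l * (((m : ℝ) - 1) / 2) = (2 : ℝ)⁻¹ * b l := by
      have := hs l
      field_simp
      linarith
    rw [e1, Real.rpow_mul hz1.le, Real.rpow_natCast]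
    congr 1
    rw [← one_div, ← Real.sqrt_eq_rpow, Real.sqrt_div' _ hsp.le, Real.sqrt_sq (ht l)]
  have C5 : ∏ l ∈ S, (t l / Real.sqrt (s l)) ^ b l ≤
      (∑ l, lam l * t l ^ 2) / Λ * Real.sqrt N ^ (m - 1) := by
    rw [← C4]
    apply mul_le_mul C1 C3 (Real.rpow_nonneg P2 _)
    exact P1.trans C1
  have C6 : ∏ l ∈ S, (t l / Real.sqrt (s l)) ^ b l =
      (∏ l, t l ^ b l) / ∏ l, Real.sqrt (s l) ^ b l := by
    rw [← hprodS, ← hprodS, ← Finset.prod_div_distrib]
    exact Finset.prod_congr rfl fun l _ => by rw [div_pow]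
  have hQ : 0 < ∏ l, Real.sqrt (s l) ^ b l := by
    rw [← hprodS]
    apply Finset.prod_pos
    intro l hl
    rw [hmemS] at hl
    have := hspos l hl
    positivity
  rw [C6, div_le_iff₀ hQ] at C5
  calc Λ * ∏ l, t l ^ b l ≤ Λ * ((∑ l, lam l * t l ^ 2) / Λ * Real.sqrt N ^ (m - 1) *
        ∏ l, Real.sqrt (s l) ^ b l) := by gcongr
    _ = _ := by field_simp

/-- existence and uniqueness of the parameter -/
theorem exists_unique_par {lam : ι → ℝ} (hl : ∀ l, 0 < lam l) {b : ι → ℕ} {m : ℕ} (hm : 2 ≤ m)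
    (hb : ∑ l, b l = m + 1) :
    ∃! Λ : ℝ, 0 < Λ ∧ ∑ l, b l * Λ / (2 * lam l + (m - 1) * Λ) = 1 := by
  classical
  have hm' : (2 : ℝ) ≤ m := by exact_mod_cast hm
  have hden : ∀ l, ∀ x : ℝ, 0 ≤ x → 0 < 2 * lam l + (m - 1) * x := fun l x hx => by
    have := hl l
    have h2 : 0 ≤ (m - 1) * x := mul_nonneg (by linarith) hx
    linarith
  set F : ℝ → ℝ := fun x => ∑ l, b l * x / (2 * lam l + (m - 1) * x) with hF
  obtain ⟨l0, hl0⟩ : ∃ l, b l ≠ 0 := by
    by_contra h
    push Not at h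
    simp [h] at hb
  have hterm : ∀ l, ∀ x y : ℝ, 0 ≤ x → x < y →
      x / (2 * lam l + (m - 1) * x) < y / (2 * lam l + (m - 1) * y) := by
    intro l x y hx hxy
    rw [div_lt_div_iff₀ (hden l x hx) (hden l y (hx.trans hxy.le))]
    nlinarith [hl l]
  have hmono : StrictMonoOn F (Ici 0) := by
    intro x hx y hy hxy
    simp only [hF]
    apply Finset.sum_lt_sum
    · intro l _
      have := (hterm l x y hx hxy).le
      rw [mul_div_assoc, mul_div_assoc]
      gcongr
    · refine ⟨l0, Finset.mem_univ _, ?_⟩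
      rw [mul_div_assoc, mul_div_assoc]
      have : (0 : ℝ) < b l0 := by exact_mod_cast Nat.pos_of_ne_zero hl0
      exact mul_lt_mul_of_pos_left (hterm l0 x y hx hxy) this
  have hcont : ContinuousOn F (Ici 0) := by
    apply continuousOn_finsetSum
    intro l _
    apply ContinuousOn.div (by fun_prop) (by fun_prop)
    intro x hx
    exact (hden l x hx).ne'
  set M : ℝ := ∑ l, lam l with hM
  have hMl : ∀ l, lam l ≤ M := fun l =>
    Finset.single_le_sum (f := lam) (fun l _ => (hl l).le) (Finset.mem_univ l)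
  have hM0 : 0 < M := (hl l0).trans_le (hMl l0)
  have hFM : 1 ≤ F M := by
    have h1 : ∀ l, (b l : ℝ) / (m + 1) ≤ b l * M / (2 * lam l + (m - 1) * M) := by
      intro l
      rw [div_le_div_iff₀ (by linarith) (hden l M hM0.le), mul_assoc]
      have := hMl l
      gcongr
      nlinarith
    calc (1 : ℝ) = ∑ l, (b l : ℝ) / (m + 1) := by
          rw [← Finset.sum_div]
          have : (∑ l, (b l : ℝ)) = m + 1 := by exact_mod_cast hb
          rw [this, div_self (by linarith)]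
      _ ≤ F M := Finset.sum_le_sum fun l _ => h1 l
  have hF0 : F 0 = 0 := by simp [hF]
  obtain ⟨x, hx, hx1⟩ := intermediate_value_Icc hM0.le (hcont.mono Icc_subset_Ici_self)
    (show (1 : ℝ) ∈ Icc (F 0) (F M) from ⟨by rw [hF0]; exact zero_le_one, hFM⟩)
  have hx0 : 0 < x := by
    rcases hx.1.eq_or_lt with h | h
    · rw [← h, hF0] at hx1
      norm_num at hx1
    · exact h
  refine ⟨x, ⟨hx0, hx1⟩, ?_⟩
  rintro y ⟨hy0, hy1⟩
  exact hmono.injOn hy0.le hx0.le (by rw [hx1]; exact hy1)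

end RealPart



section Hilbert

theorem re_circleAverage_nonneg {G : ℂ → ℂ} {r : ℝ} (hr : 0 < r) (hG : CircleIntegrable G 0 r)
    (h : ∀ z : ℂ, ‖z‖ = r → 0 ≤ (G z).re) : 0 ≤ (Real.circleAverage G 0 r).re := by
  have h1 := Complex.reCLM.circleAverage_comp_comm hG
  have h2 : 0 ≤ Real.circleAverage (Complex.reCLM ∘ G) 0 r := by
    apply Real.circleAverage_nonneg_of_nonneg
    intro z hz
    simp only [abs_of_pos hr, mem_sphere_iff_norm, sub_zero] at hz
    simpa using h z hz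
  rw [h1] at h2
  simpa using h2

variable {E : Type*} [NormedAddCommGroup E] [InnerProductSpace ℂ E] [CompleteSpace E]

/-- The main inequality, in any complex Hilbert space. -/
theorem hilbert_bound {h : E → E} (hd : DifferentiableOn ℂ h (ball 0 1))
    (hpos : ∀ z ∈ ball (0 : E) 1, 0 ≤ (inner ℂ z (h z)).re) {k : ℕ} (hk : 2 ≤ k) {a v : E}
    (hav : inner ℂ a v = 0) (hn : ‖a‖ ^ 2 + ‖v‖ ^ 2 ≤ 1) :
    0 ≤ (inner ℂ a (fderiv ℂ h 0 a)).re + (inner ℂ v (fderiv ℂ h 0 v)).re +
      (inner ℂ v (tc k (fun ζ : ℂ => h (ζ • a)))).re := by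
  set z : ℂ → E := fun ζ => ζ • a + ζ ^ k • v with hz
  have hzn : ∀ ζ, ‖z ζ‖ ^ 2 = ‖ζ‖ ^ 2 * ‖a‖ ^ 2 + (‖ζ‖ ^ k) ^ 2 * ‖v‖ ^ 2 := by
    intro ζ
    have h1 : inner ℂ (ζ • a) (ζ ^ k • v) = 0 := by
      rw [inner_smul_left, inner_smul_right, hav]; simp
    have h2 := norm_add_sq_eq_norm_sq_add_norm_sq_of_inner_eq_zero (𝕜 := ℂ) (ζ • a) (ζ ^ k • v) h1
    simp only [norm_smul, norm_pow] at h2
    simp only [hz, sq]
    rw [h2]
    ring
  have hzb : ∀ ζ : ℂ, ‖ζ‖ < 1 → z ζ ∈ ball (0 : E) 1 := by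
    intro ζ hζ
    rw [mem_ball_zero_iff]
    have h1 : (‖ζ‖ ^ k) ^ 2 ≤ ‖ζ‖ ^ 2 := by
      have : ‖ζ‖ ^ k ≤ ‖ζ‖ := by
        calc ‖ζ‖ ^ k ≤ ‖ζ‖ ^ 1 := pow_le_pow_of_le_one (norm_nonneg _) hζ.le (by omega)
          _ = ‖ζ‖ := pow_one _
      gcongr
    have h2 : ‖z ζ‖ ^ 2 ≤ ‖ζ‖ ^ 2 := by
      rw [hzn]
      nlinarith [sq_nonneg ‖a‖, sq_nonneg ‖v‖, sq_nonneg ‖ζ‖]
    have h3 : ‖z ζ‖ ≤ ‖ζ‖ := (pow_le_pow_iff_left₀ (norm_nonneg _) (norm_nonneg _) two_ne_zero).1 h2
    exact h3.trans_lt hζ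
  set H : ℂ → E := fun ζ => h (z ζ) with hH
  have hHd : DifferentiableOn ℂ H (ball 0 1) := by
    intro ζ hζ
    have h3 : DifferentiableAt ℂ z ζ := by simp only [hz]; fun_prop
    exact ((hd.differentiableAt (isOpen_ball.mem_nhds (hzb ζ (by simpa using hζ)))).comp ζ
      h3).differentiableWithinAt
  have htk : tc k H = tc k (fun ζ : ℂ => h (ζ • a)) + fderiv ℂ h 0 v := tc_curve one_pos hd hk a v
  have ht1 : tc 1 H = fderiv ℂ h 0 a := tc_one_curve one_pos hd hk a v
  set P := tc k (fun ζ : ℂ => h (ζ • a)) with hP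
  have hr : ∀ r : ℝ, 0 < r → r < 1 →
      0 ≤ r ^ 2 * (inner ℂ a (fderiv ℂ h 0 a)).re + r ^ (2 * k) *
        ((inner ℂ v P).re + (inner ℂ v (fderiv ℂ h 0 v)).re) := by
    intro r hr0 hr1
    have hdc : DiffContOnCl ℂ H (ball 0 r) := by
      apply DifferentiableOn.diffContOnCl
      rw [closure_ball _ hr0.ne']
      exact hHd.mono (closedBall_subset_ball hr1)
    have havg : ∀ (n : ℕ), Real.circleAverage (fun ζ => (ζ ^ n)⁻¹ • H ζ) 0 r = tc n H := by
      intro n
      exact tc_circleAverage hr0 n hdc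
    have hcont : ContinuousOn H (sphere 0 r) := by
      apply hHd.continuousOn.mono
      intro ζ hζ
      have : ‖ζ‖ = r := by simpa using hζ
      simpa [this] using hr1
    have hinv : ∀ n : ℕ, ContinuousOn (fun ζ : ℂ => (ζ ^ n)⁻¹) (sphere 0 r) := by
      intro n
      apply ContinuousOn.inv₀ (by fun_prop)
      intro ζ hζ
      have : ‖ζ‖ = r := by simpa using hζ
      apply pow_ne_zero
      intro h7
      rw [h7, norm_zero] at this
      linarith
    have hci : ∀ {f : ℂ → E}, ContinuousOn f (sphere 0 r) → CircleIntegrable f 0 r := by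
      intro f hf
      exact ContinuousOn.circleIntegrable hr0.le hf
    have hci' : ∀ {f : ℂ → ℂ}, ContinuousOn f (sphere 0 r) → CircleIntegrable f 0 r := by
      intro f hf
      exact ContinuousOn.circleIntegrable hr0.le hf
    have i1 : CircleIntegrable (fun ζ => (ζ ^ k)⁻¹ • H ζ) 0 r := hci ((hinv k).smul hcont)
    have i2 : CircleIntegrable (fun ζ => (ζ ^ 1)⁻¹ • H ζ) 0 r := hci ((hinv 1).smul hcont)
    have c1 : Real.circleAverage (fun ζ => inner ℂ v ((ζ ^ k)⁻¹ • H ζ)) 0 r =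
        inner ℂ v (tc k H) := by
      rw [← havg k]
      exact ((innerSL ℂ v).restrictScalars ℝ).circleAverage_comp_comm i1
    have c2 : Real.circleAverage (fun ζ => inner ℂ a ((ζ ^ 1)⁻¹ • H ζ)) 0 r =
        inner ℂ a (tc 1 H) := by
      rw [← havg 1]
      exact ((innerSL ℂ a).restrictScalars ℝ).circleAverage_comp_comm i2
    have j1' : CircleIntegrable (fun ζ => inner ℂ v ((ζ ^ k)⁻¹ • H ζ)) 0 r :=
      hci' ((innerSL ℂ v).continuous.comp_continuousOn ((hinv k).smul hcont))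
    have j2' : CircleIntegrable (fun ζ => inner ℂ a ((ζ ^ 1)⁻¹ • H ζ)) 0 r :=
      hci' ((innerSL ℂ a).continuous.comp_continuousOn ((hinv 1).smul hcont))
    have j1 := j1'.const_fun_smul (a := ((r : ℂ) ^ (2 * k)))
    have j2 := j2'.const_fun_smul (a := ((r : ℂ) ^ 2))
    set G : ℂ → ℂ := (fun ζ => ((r : ℂ) ^ (2 * k)) • inner ℂ v ((ζ ^ k)⁻¹ • H ζ)) +
      (fun ζ => ((r : ℂ) ^ 2) • inner ℂ a ((ζ ^ 1)⁻¹ • H ζ)) with hG
    have hGi : CircleIntegrable G 0 r := j1.add j2
    have hGavg : Real.circleAverage G 0 r =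
        ((r : ℂ) ^ (2 * k)) • inner ℂ v (tc k H) + ((r : ℂ) ^ 2) • inner ℂ a (tc 1 H) := by
      rw [hG, Real.circleAverage_add j1 j2, Real.circleAverage_fun_smul,
        Real.circleAverage_fun_smul, c1, c2]
    have hGpos : ∀ ζ : ℂ, ‖ζ‖ = r → 0 ≤ (G ζ).re := by
      intro ζ hζ
      have hζ0 : ζ ≠ 0 := by
        intro h7
        rw [h7, norm_zero] at hζ
        linarith
      have hc1 : (starRingEnd ℂ) ζ = r ^ 2 * ζ⁻¹ := by
        have : ζ * (starRingEnd ℂ) ζ = r ^ 2 := by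
          rw [Complex.mul_conj, Complex.normSq_eq_norm_sq, hζ]; push_cast; rfl
        field_simp
        rw [mul_comm]
        exact this
      have e1 : G ζ = inner ℂ (z ζ) (H ζ) := by
        simp only [hG, hz, Pi.add_apply, inner_add_left, inner_smul_left, inner_smul_right,
          smul_eq_mul, map_pow, hc1, mul_pow, inv_pow, pow_one]
        rw [← pow_mul]
        ring
      rw [e1]
      exact hpos _ (hzb ζ (by rw [hζ]; exact hr1))
    have hfin := re_circleAverage_nonneg hr0 hGi hGpos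
    rw [hGavg, htk, ht1, inner_add_right, smul_eq_mul, smul_eq_mul, Complex.add_re] at hfin
    have e3 : ∀ (n : ℕ) (w : ℂ), ((r : ℂ) ^ n * w).re = r ^ n * w.re := by
      intro n w
      rw [← Complex.ofReal_pow, Complex.re_ofReal_mul]
    rw [e3, e3, Complex.add_re] at hfin
    linarith
  have hl1 : Tendsto (fun r : ℝ => r ^ 2 * (inner ℂ a (fderiv ℂ h 0 a)).re + r ^ (2 * k) *
        ((inner ℂ v P).re + (inner ℂ v (fderiv ℂ h 0 v)).re)) (𝓝[<] 1)
      (𝓝 ((1 : ℝ) ^ 2 * (inner ℂ a (fderiv ℂ h 0 a)).re + (1 : ℝ) ^ (2 * k) *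
        ((inner ℂ v P).re + (inner ℂ v (fderiv ℂ h 0 v)).re))) := by
    apply Tendsto.mono_left _ nhdsWithin_le_nhds
    apply Continuous.tendsto
    fun_prop
  have hfin := ge_of_tendsto hl1 (by
    filter_upwards [Ioo_mem_nhdsLT (zero_lt_one (α := ℝ))] with r hr'
    exact hr r hr'.1 hr'.2)
  simp only [one_pow, one_mul] at hfin
  linarith

end Hilbert



section Coefficients

variable {ι : Type} [Fintype ι] [DecidableEq ι]

/-- Coefficient of `z^α` in the homogeneous polynomial `(1/m!) D^m f(0)(z, ..., z)`. -/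
noncomputable def coefm (m : ℕ) (f : EuclideanSpace ℂ ι → ℂ) (α : ι → ℕ) : ℂ :=
  ((m.factorial : ℂ))⁻¹ *
    ∑ σ ∈ Finset.univ.filter (fun σ : Fin m → ι =>
      ∀ l, (Finset.univ.filter fun k => σ k = l).card = α l),
      iteratedFDeriv ℂ m f 0 (fun k => EuclideanSpace.single (σ k) (1 : ℂ))

theorem vec_eq_sum (z : EuclideanSpace ℂ ι) :
    z = ∑ l, z l • EuclideanSpace.single l (1 : ℂ) := by
  ext j
  simp only [WithLp.ofLp_sum, WithLp.ofLp_smul, Finset.sum_apply, Pi.smul_apply, smul_eq_mul,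
    EuclideanSpace.single, PiLp.ofLp_single]
  rw [Finset.sum_eq_single j]
  · simp
  · intro b _ hb
    simp [hb.symm]
  · simp

theorem tc_eq_sum {f : EuclideanSpace ℂ ι → ℂ} {R : ℝ} (hR : 0 < R)
    (hf : DifferentiableOn ℂ f (ball 0 R)) (m : ℕ) (z : EuclideanSpace ℂ ι) :
    tc m (fun t : ℂ => f (t • z)) =
      ∑ β ∈ Finset.piAntidiag Finset.univ m, coefm m f β * ∏ l, z l ^ β l := by
  rw [tc_slice hR hf m z]
  set D := iteratedFDeriv ℂ m f 0 with hD
  have h1 : D (fun _ => z) = ∑ σ : Fin m → ι, (∏ k, z (σ k)) *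
      D (fun k => EuclideanSpace.single (σ k) (1 : ℂ)) := by
    have e1 : (fun _ : Fin m => z) = fun _ => ∑ l, z l • EuclideanSpace.single l (1 : ℂ) := by
      ext1 _
      exact vec_eq_sum z
    rw [e1]
    have e2 := D.toMultilinearMap.map_sum (fun (_ : Fin m) (l : ι) =>
      z l • EuclideanSpace.single l (1 : ℂ))
    simp only [ContinuousMultilinearMap.coe_coe] at e2
    rw [e2]
    apply Finset.sum_congr rfl
    intro σ _
    have e3 := D.toMultilinearMap.map_smul_univ (fun k => z (σ k))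
      (fun k => EuclideanSpace.single (σ k) (1 : ℂ))
    simp only [ContinuousMultilinearMap.coe_coe, smul_eq_mul] at e3
    exact e3
  have hprod : ∀ σ : Fin m → ι, ∏ k, z (σ k) =
      ∏ l, z l ^ (Finset.univ.filter fun k => σ k = l).card := by
    intro σ
    rw [← Finset.prod_fiberwise (s := Finset.univ) (g := σ)]
    apply Finset.prod_congr rfl
    intro l _
    rw [Finset.prod_congr rfl (g := fun _ => z l), Finset.prod_const]
    intro k hk
    rw [(Finset.mem_filter.1 hk).2]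
  rw [h1, smul_eq_mul]
  set c : (Fin m → ι) → (ι → ℕ) := fun σ l => (Finset.univ.filter fun k => σ k = l).card with hc
  have hmaps : ∀ σ ∈ (Finset.univ : Finset (Fin m → ι)), c σ ∈ Finset.piAntidiag Finset.univ m := by
    intro σ _
    rw [Finset.mem_piAntidiag]
    refine ⟨?_, fun i _ => Finset.mem_univ _⟩
    have := Finset.card_eq_sum_card_fiberwise (s := (Finset.univ : Finset (Fin m)))
      (t := (Finset.univ : Finset ι)) (f := σ) (fun _ _ => Finset.mem_univ _)
    simp only [Finset.card_univ, Fintype.card_fin] at this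
    exact this.symm
  rw [← Finset.sum_fiberwise_of_maps_to hmaps, Finset.mul_sum]
  apply Finset.sum_congr rfl
  intro β _
  rw [coefm, mul_assoc, Finset.sum_mul]
  congr 1
  have hfil : (Finset.univ.filter fun σ : Fin m → ι => c σ = β) =
      Finset.univ.filter (fun σ : Fin m → ι =>
        ∀ l, (Finset.univ.filter fun k => σ k = l).card = β l) := by
    ext σ
    simp only [Finset.mem_filter, Finset.mem_univ, true_and, hc, funext_iff]
  rw [hfil]
  apply Finset.sum_congr rfl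
  intro σ hσ
  rw [hprod, mul_comm]
  congr 1
  apply Finset.prod_congr rfl
  intro l _
  rw [(Finset.mem_filter.1 hσ).2 l]

/-- orthogonality of roots of unity -/
theorem geom_root {N : ℕ} {ω : ℂ} (hω : IsPrimitiveRoot ω N) {p q : ℕ} (hp : p < N)
    (hq : q < N) : ∑ t : Fin N, (ω ^ (p * (t : ℕ)))⁻¹ * ω ^ (q * (t : ℕ)) = if q = p then (N : ℂ) else 0 := by
  have hω0 : ω ≠ 0 := hω.ne_zero (by omega)
  have h1 : ∀ t : ℕ, (ω ^ (p * t))⁻¹ * ω ^ (q * t) = ((ω ^ p)⁻¹ * ω ^ q) ^ t := by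
    intro t
    rw [mul_pow, inv_pow, ← pow_mul, ← pow_mul]
  simp only [h1]
  rw [Fin.sum_univ_eq_sum_range (fun t => ((ω ^ p)⁻¹ * ω ^ q) ^ t) N]
  split_ifs with h
  · subst h
    rw [inv_mul_cancel₀ (pow_ne_zero _ hω0)]
    simp
  · have hne : (ω ^ p)⁻¹ * ω ^ q ≠ 1 := by
      intro h2
      apply h
      rw [inv_mul_eq_one₀ (pow_ne_zero _ hω0)] at h2
      exact (hω.pow_inj hp hq h2).symm
    rw [geom_sum_eq hne, mul_pow, inv_pow, ← pow_mul, ← pow_mul, mul_comm p, mul_comm q, pow_mul,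
      pow_mul, hω.pow_eq_one]
    simp

/-- extraction of a coefficient by averaging over a finite torus -/
theorem torus_avg {m N : ℕ} (hN : m < N) {ω : ℂ} (hω : IsPrimitiveRoot ω N) (c : (ι → ℕ) → ℂ)
    {α : ι → ℕ} (hα : ∑ l, α l = m) (y : ι → ℂ) :
    ∑ θ : ι → Fin N, (∏ l, (ω ^ (α l * (θ l : ℕ)))⁻¹) *
        ∑ β ∈ Finset.piAntidiag Finset.univ m, c β * ∏ l, (y l * ω ^ (θ l : ℕ)) ^ β l =
      (N : ℂ) ^ Fintype.card ι * (c α * ∏ l, y l ^ α l) := by
  have hlt : ∀ β ∈ Finset.piAntidiag (Finset.univ : Finset ι) m, ∀ l, β l < N := by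
    intro β hβ l
    rw [Finset.mem_piAntidiag] at hβ
    have h1 : β l ≤ ∑ l, β l := Finset.single_le_sum (f := β) (fun _ _ => Nat.zero_le _)
      (Finset.mem_univ l)
    have h2 : ∑ l, β l = m := hβ.1
    omega
  have hαm : α ∈ Finset.piAntidiag (Finset.univ : Finset ι) m := by
    rw [Finset.mem_piAntidiag]
    exact ⟨hα, fun _ _ => Finset.mem_univ _⟩
  simp only [Finset.mul_sum]
  rw [Finset.sum_comm]
  have h1 : ∀ β ∈ Finset.piAntidiag (Finset.univ : Finset ι) m,
      ∑ θ : ι → Fin N, (∏ l, (ω ^ (α l * (θ l : ℕ)))⁻¹) *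
        (c β * ∏ l, (y l * ω ^ (θ l : ℕ)) ^ β l) =
      if β = α then (N : ℂ) ^ Fintype.card ι * (c α * ∏ l, y l ^ α l) else 0 := by
    intro β hβ
    have h2 : ∀ θ : ι → Fin N, (∏ l, (ω ^ (α l * (θ l : ℕ)))⁻¹) *
        (c β * ∏ l, (y l * ω ^ (θ l : ℕ)) ^ β l) = (c β * ∏ l, y l ^ β l) *
          ∏ l, ((ω ^ (α l * (θ l : ℕ)))⁻¹ * ω ^ (β l * (θ l : ℕ))) := by
      intro θ
      rw [Finset.prod_mul_distrib]
      have : ∏ l, (y l * ω ^ (θ l : ℕ)) ^ β l = (∏ l, y l ^ β l) * ∏ l, ω ^ (β l * (θ l : ℕ)) := by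
        rw [← Finset.prod_mul_distrib]
        apply Finset.prod_congr rfl
        intro l _
        rw [mul_pow, ← pow_mul, mul_comm (β l)]
      rw [this]
      ring
    simp only [h2]
    rw [← Finset.mul_sum]
    have h3 : ∑ θ : ι → Fin N, ∏ l, ((ω ^ (α l * (θ l : ℕ)))⁻¹ * ω ^ (β l * (θ l : ℕ))) =
        ∏ l, ∑ t : Fin N, ((ω ^ (α l * (t : ℕ)))⁻¹ * ω ^ (β l * (t : ℕ))) := by
      rw [Finset.prod_univ_sum]
      simp
    rw [h3]
    have h4 : ∀ l, ∑ t : Fin N, ((ω ^ (α l * (t : ℕ)))⁻¹ * ω ^ (β l * (t : ℕ))) =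
        if β l = α l then (N : ℂ) else 0 := fun l => geom_root hω (hlt α hαm l) (hlt β hβ l)
    simp only [h4]
    split_ifs with h
    · subst h
      simp [Finset.prod_const, mul_comm]
    · obtain ⟨l, hl⟩ : ∃ l, β l ≠ α l := by
        by_contra h5
        push Not at h5
        exact h (funext h5)
      have h6 : ∏ l, (if β l = α l then (N : ℂ) else 0) = 0 :=
        Finset.prod_eq_zero (Finset.mem_univ l) (by rw [if_neg hl])
      rw [h6, mul_zero]
  rw [Finset.sum_congr rfl h1, Finset.sum_ite_eq' _ _ _, if_pos hαm]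

/-- expansion of a holomorphic function on the ball -/
theorem hasSum_coef {f : EuclideanSpace ℂ ι → ℂ} (hf : DifferentiableOn ℂ f (ball 0 1))
    {z : EuclideanSpace ℂ ι} (hz : z ∈ ball (0 : EuclideanSpace ℂ ι) 1) :
    HasSum (fun m => ∑ β ∈ Finset.piAntidiag Finset.univ m, coefm m f β * ∏ l, z l ^ β l) (f z) := by
  rw [mem_ball_zero_iff] at hz
  obtain ⟨r, hr1, hr2⟩ : ∃ r : ℝ, 1 < r ∧ r * ‖z‖ < 1 := by
    rcases (norm_nonneg z).eq_or_lt with h | h
    · exact ⟨2, by norm_num, by rw [← h]; norm_num⟩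
    · refine ⟨(1 + ‖z‖) / (2 * ‖z‖), ?_, ?_⟩
      · rw [lt_div_iff₀ (by positivity)]; linarith
      · field_simp; linarith
  have hr0 : 0 < r := by linarith
  have hd : DifferentiableOn ℂ (fun t : ℂ => f (t • z)) (ball 0 r) := by
    intro t ht
    rw [mem_ball_zero_iff] at ht
    have h1 : t • z ∈ ball (0 : EuclideanSpace ℂ ι) 1 := by
      rw [mem_ball_zero_iff, norm_smul]
      have : ‖t‖ * ‖z‖ ≤ r * ‖z‖ := by gcongr
      linarith
    have h2 : DifferentiableAt ℂ (fun t : ℂ => t • z) t := by fun_prop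
    exact ((hf.differentiableAt (isOpen_ball.mem_nhds h1)).comp t h2).differentiableWithinAt
  have h1 : (1 : ℂ) ∈ ball (0 : ℂ) r := by simpa using hr1
  have h3 := Complex.hasSum_taylorSeries_on_ball hd h1
  simp only [sub_zero, one_pow, one_smul] at h3
  refine h3.congr_fun ?_
  intro m
  rw [← tc_eq_sum one_pos hf m z, tc]

end Coefficients


section Family

variable {ι : Type} [Fintype ι] [DecidableEq ι]

/-- The family `N_A`, `A = diag(lam)`. -/
def fam (lam : ι → ℂ) : Set (EuclideanSpace ℂ ι → EuclideanSpace ℂ ι) :=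
  {h | DifferentiableOn ℂ h (ball 0 1) ∧ h 0 = 0 ∧
    (∀ (v : EuclideanSpace ℂ ι) (l : ι), fderiv ℂ h 0 v l = lam l * v l) ∧
    ∀ z ∈ ball (0 : EuclideanSpace ℂ ι) 1, z ≠ 0 → 0 < (inner ℂ z (h z)).re}

theorem inner_eq (z w : EuclideanSpace ℂ ι) :
    inner ℂ z w = ∑ l, (starRingEnd ℂ) (z l) * w l := by
  rw [PiLp.inner_apply]
  simp [mul_comm]

theorem comp_diff {h : EuclideanSpace ℂ ι → EuclideanSpace ℂ ι} {s : Set (EuclideanSpace ℂ ι)}
    (hd : DifferentiableOn ℂ h s) (i : ι) : DifferentiableOn ℂ (fun z => h z i) s :=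
  (EuclideanSpace.proj i : EuclideanSpace ℂ ι →L[ℂ] ℂ).differentiable.comp_differentiableOn hd

theorem inner_diag_re {lam : ι → ℂ} (v w : EuclideanSpace ℂ ι) (hw : ∀ l, w l = lam l * v l) :
    (inner ℂ v w).re = ∑ l, (lam l).re * ‖v l‖ ^ 2 := by
  rw [inner_eq, Complex.re_sum]
  apply Finset.sum_congr rfl
  intro l _
  rw [hw]
  have : (starRingEnd ℂ) (v l) * (lam l * v l) = ((‖v l‖ ^ 2 : ℝ) : ℂ) * lam l := by
    have h1 : (starRingEnd ℂ) (v l) * v l = ((‖v l‖ ^ 2 : ℝ) : ℂ) := by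
      rw [mul_comm, Complex.mul_conj, Complex.normSq_eq_norm_sq]
    rw [← h1]
    ring
  rw [this, Complex.re_ofReal_mul, mul_comm]

/-- Upper bound for the value of the homogeneous polynomial. -/
theorem poly_bound {lam : ι → ℂ} {h : EuclideanSpace ℂ ι → EuclideanSpace ℂ ι} (hh : h ∈ fam lam)
    {m : ℕ} (hm : 2 ≤ m) {i : ι} {t : ι → ℝ} (ht : ∀ l, 0 ≤ t l) (ht1 : ∑ l, t l ^ 2 = 1)
    {a : EuclideanSpace ℂ ι} (hai : a i = 0) (ha : ∀ l, l ≠ i → ‖a l‖ = t l) :
    t i * ‖tc m (fun ζ : ℂ => h (ζ • a) i)‖ ≤ ∑ l, (lam l).re * t l ^ 2 := by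
  obtain ⟨hd, hh0, hder, hpos⟩ := hh
  have hpos' : ∀ z ∈ ball (0 : EuclideanSpace ℂ ι) 1, 0 ≤ (inner ℂ z (h z)).re := by
    intro z hz
    rcases eq_or_ne z 0 with h2 | h2
    · simp [h2]
    · exact (hpos z hz h2).le
  set q : ℂ := tc m (fun ζ : ℂ => h (ζ • a) i) with hq
  obtain ⟨φ, hφ1, hφ⟩ : ∃ φ : ℂ, ‖φ‖ = 1 ∧ (starRingEnd ℂ) φ * q = ‖q‖ := by
    rcases eq_or_ne q 0 with h | h
    · exact ⟨1, by simp, by simp [h]⟩
    · have hn : (‖q‖ : ℂ) ≠ 0 := by exact_mod_cast (norm_pos_iff.2 h).ne'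
      refine ⟨q / ‖q‖, ?_, ?_⟩
      · rw [norm_div, Complex.norm_real, norm_norm, div_self (norm_pos_iff.2 h).ne']
      · rw [map_div₀, Complex.conj_ofReal, div_mul_eq_mul_div, mul_comm, Complex.mul_conj,
          Complex.normSq_eq_norm_sq]
        push_cast
        field_simp
  set v : EuclideanSpace ℂ ι := (-(t i * φ) : ℂ) • EuclideanSpace.single i (1 : ℂ) with hv
  have hvi : v i = -(t i * φ) := by simp [hv]
  have hvl : ∀ l, l ≠ i → v l = 0 := by
    intro l hl
    simp [hv, hl]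
  have hav : inner ℂ a v = 0 := by
    rw [inner_eq]
    apply Finset.sum_eq_zero
    intro l _
    rcases eq_or_ne l i with h1 | h1
    · rw [h1, hai]; simp
    · rw [hvl l h1, mul_zero]
  have hsplit : ∀ f : ι → ℝ, ∑ l, f l = f i + ∑ l ∈ Finset.univ.erase i, f l := fun f =>
    (Finset.add_sum_erase _ f (Finset.mem_univ i)).symm
  have hna : ‖a‖ ^ 2 = ∑ l ∈ Finset.univ.erase i, t l ^ 2 := by
    rw [EuclideanSpace.norm_sq_eq, hsplit, hai]
    simp only [norm_zero, ne_eq, OfNat.ofNat_ne_zero, not_false_eq_true, zero_pow, zero_add]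
    apply Finset.sum_congr rfl
    intro l hl
    rw [ha l (Finset.ne_of_mem_erase hl)]
  have hnv : ‖v‖ ^ 2 = t i ^ 2 := by
    rw [hv, norm_smul, norm_neg, norm_mul, hφ1, Complex.norm_real, Real.norm_of_nonneg (ht i)]
    simp
  have hn : ‖a‖ ^ 2 + ‖v‖ ^ 2 ≤ 1 := by
    rw [hna, hnv, ← ht1, hsplit (fun l => t l ^ 2), add_comm]
  have key := hilbert_bound hd hpos' hm hav hn
  have k1 : (inner ℂ a (fderiv ℂ h 0 a)).re = ∑ l ∈ Finset.univ.erase i, (lam l).re * t l ^ 2 := by
    rw [inner_diag_re a _ (hder a), hsplit, hai]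
    simp only [norm_zero, ne_eq, OfNat.ofNat_ne_zero, not_false_eq_true, zero_pow, mul_zero,
      zero_add]
    apply Finset.sum_congr rfl
    intro l hl
    rw [ha l (Finset.ne_of_mem_erase hl)]
  have k2 : (inner ℂ v (fderiv ℂ h 0 v)).re = (lam i).re * t i ^ 2 := by
    rw [inner_diag_re v _ (hder v), hsplit, hvi]
    have : ∑ l ∈ Finset.univ.erase i, (lam l).re * ‖v l‖ ^ 2 = 0 := by
      apply Finset.sum_eq_zero
      intro l hl
      rw [hvl l (Finset.ne_of_mem_erase hl)]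
      simp
    rw [this, norm_neg, norm_mul, hφ1, Complex.norm_real, Real.norm_of_nonneg (ht i)]
    ring
  have k3 : (inner ℂ v (tc m (fun ζ : ℂ => h (ζ • a)))).re = -(t i * ‖q‖) := by
    have hsl : DifferentiableOn ℂ (fun ζ : ℂ => h (ζ • a)) (ball 0 1) := by
      intro ζ hζ
      have hζ' : ‖ζ‖ < 1 := by simpa using hζ
      have h2 : ζ • a ∈ ball (0 : EuclideanSpace ℂ ι) 1 := by
        rw [mem_ball_zero_iff, norm_smul]
        have h3 : ‖a‖ ≤ 1 := by
          have : ‖a‖ ^ 2 ≤ 1 := by nlinarith [sq_nonneg ‖v‖]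
          nlinarith [norm_nonneg a]
        nlinarith [norm_nonneg ζ, norm_nonneg a]
      have h3 : DifferentiableAt ℂ (fun ζ : ℂ => ζ • a) ζ := by fun_prop
      exact ((hd.differentiableAt (isOpen_ball.mem_nhds h2)).comp ζ h3).differentiableWithinAt
    have h4 : q = (tc m (fun ζ : ℂ => h (ζ • a))) i := by
      rw [hq]
      exact tc_clm (EuclideanSpace.proj i : EuclideanSpace ℂ ι →L[ℂ] ℂ) m
        (contDiffAt_of_ball one_pos hsl m)
    rw [inner_eq, Finset.sum_eq_single i, hvi, ← h4]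
    · have : (starRingEnd ℂ) (-(t i * φ) : ℂ) * q = ((-(t i * ‖q‖) : ℝ) : ℂ) := by
        rw [map_neg, map_mul, Complex.conj_ofReal]
        push_cast
        linear_combination (-(t i : ℂ)) * hφ
      rw [this, Complex.ofReal_re]
    · intro l _ hl
      rw [hvl l hl, map_zero, zero_mul]
    · intro h; exact absurd (Finset.mem_univ i) h
  rw [k1, k2, k3] at key
  rw [hsplit (fun l => (lam l).re * t l ^ 2)]
  linarith

/-- Upper bound for the coefficient. -/
theorem coef_bound {lam : ι → ℂ} {h : EuclideanSpace ℂ ι → EuclideanSpace ℂ ι} (hh : h ∈ fam lam)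
    {i : ι} {α : ι → ℕ} {m : ℕ} (hα : ∑ l, α l = m) (hi : α i = 0)
    (hm : 2 ≤ m) {t : ι → ℝ} (ht : ∀ l, 0 ≤ t l) (ht1 : ∑ l, t l ^ 2 = 1) :
    t i * (∏ l, t l ^ α l) * ‖coefm m (fun z => h z i) α‖ ≤ ∑ l, (lam l).re * t l ^ 2 := by
  set N := m + 1 with hN
  have hN0 : N ≠ 0 := by omega
  set ω : ℂ := Complex.exp (2 * Real.pi * Complex.I / N) with hω'
  have hω : IsPrimitiveRoot ω N := Complex.isPrimitiveRoot_exp N hN0
  have hωn : ‖ω‖ = 1 := hω.norm'_eq_one hN0
  set c := coefm m (fun z => h z i) with hc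
  set y : ι → ℂ := fun l => if l = i then 0 else (t l : ℂ) with hy
  have hav := torus_avg (m := m) (N := N) (by omega) hω c hα y
  have hyp : ∏ l, y l ^ α l = ((∏ l, t l ^ α l : ℝ) : ℂ) := by
    rw [Complex.ofReal_prod]
    apply Finset.prod_congr rfl
    intro l _
    rcases eq_or_ne l i with h1 | h1
    · rw [h1, hi]; simp
    · simp [hy, h1]
  have hpoly : ∀ θ : ι → Fin N, ∑ β ∈ Finset.piAntidiag Finset.univ m,
      c β * ∏ l, (y l * ω ^ (θ l : ℕ)) ^ β l =
        tc m (fun ζ : ℂ => h (ζ • (WithLp.toLp 2 fun l => y l * ω ^ (θ l : ℕ))) i) := by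
    intro θ
    have := tc_eq_sum one_pos (comp_diff hh.1 i) m (WithLp.toLp 2 fun l => y l * ω ^ (θ l : ℕ))
    rw [this]
  have hbd : ∀ θ : ι → Fin N, ‖t i * ((∏ l, (ω ^ (α l * (θ l : ℕ)))⁻¹) *
        ∑ β ∈ Finset.piAntidiag Finset.univ m, c β * ∏ l, (y l * ω ^ (θ l : ℕ)) ^ β l)‖ ≤
      ∑ l, (lam l).re * t l ^ 2 := by
    intro θ
    rw [hpoly θ, norm_mul, norm_mul]
    have h1 : ‖∏ l, (ω ^ (α l * (θ l : ℕ)))⁻¹‖ = 1 := by
      rw [norm_prod]
      apply Finset.prod_eq_one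
      intro l _
      rw [norm_inv, norm_pow, hωn]
      simp
    rw [h1, one_mul, Complex.norm_real, Real.norm_of_nonneg (ht i)]
    apply poly_bound hh hm ht ht1
    · simp [hy]
    · intro l hl
      simp [hy, hl, hωn, abs_of_nonneg (ht l)]
  have hsum : ‖(t i : ℂ) * ((N : ℂ) ^ Fintype.card ι * (c α * ∏ l, y l ^ α l))‖ ≤
      (N : ℝ) ^ Fintype.card ι * ∑ l, (lam l).re * t l ^ 2 := by
    rw [← hav, Finset.mul_sum]
    refine (norm_sum_le _ _).trans ((Finset.sum_le_sum fun θ _ => hbd θ).trans ?_)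
    rw [Finset.sum_const, nsmul_eq_mul]
    apply le_of_eq
    congr 1
    simp
  rw [hyp, norm_mul, norm_mul, norm_mul, Complex.norm_real, Complex.norm_real, norm_pow,
    Complex.norm_natCast, Real.norm_of_nonneg (ht i),
    Real.norm_of_nonneg (Finset.prod_nonneg fun l _ => pow_nonneg (ht l) _)] at hsum
  have hNp : (0 : ℝ) < (N : ℝ) ^ Fintype.card ι := by positivity
  have : (N : ℝ) ^ Fintype.card ι * (t i * (∏ l, t l ^ α l) * ‖c α‖) ≤
      (N : ℝ) ^ Fintype.card ι * ∑ l, (lam l).re * t l ^ 2 := by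
    refine le_trans (le_of_eq ?_) hsum
    ring
  exact le_of_mul_le_mul_left this hNp

/-- The extremal map. -/
noncomputable def ext (lam : ι → ℂ) (i : ι) (α : ι → ℕ) (B : ℝ) :
    EuclideanSpace ℂ ι → EuclideanSpace ℂ ι :=
  fun z => WithLp.toLp 2 fun l => lam l * z l + if l = i then (B : ℂ) * ∏ j, z j ^ α j else 0

theorem ext_diff (lam : ι → ℂ) (i : ι) (α : ι → ℕ) (B : ℝ) :
    Differentiable ℂ (ext lam i α B) := by
  rw [differentiable_euclidean]
  intro l
  have h1 : ∀ j : ι, Differentiable ℂ (fun z : EuclideanSpace ℂ ι => z j) := fun j =>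
    (EuclideanSpace.proj j : EuclideanSpace ℂ ι →L[ℂ] ℂ).differentiable
  have h2 : Differentiable ℂ (fun z : EuclideanSpace ℂ ι => ∏ j, z j ^ α j) := by
    have h3 : ContDiff ℂ 1 (fun z : EuclideanSpace ℂ ι => ∏ j, z j ^ α j) := by
      apply contDiff_prod
      intro j _
      exact ((EuclideanSpace.proj j : EuclideanSpace ℂ ι →L[ℂ] ℂ).contDiff).pow _
    exact h3.differentiable (by norm_num)
  by_cases h : l = i
  · simp only [ext, h, if_true]
    exact ((h1 i).const_mul _).add (h2.const_mul _)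
  · simp only [ext, h, if_false, add_zero]
    exact (h1 l).const_mul _

theorem prod_norm_le (z : EuclideanSpace ℂ ι) (α : ι → ℕ) :
    ‖∏ j, z j ^ α j‖ ≤ ‖z‖ ^ (∑ j, α j) := by
  rw [norm_prod, ← Finset.prod_pow_eq_pow_sum]
  apply Finset.prod_le_prod
  · intro j _; positivity
  · intro j _
    rw [norm_pow]
    gcongr
    exact PiLp.norm_apply_le z j

theorem ext_fderiv (lam : ι → ℂ) (i : ι) {α : ι → ℕ} (hα : 2 ≤ ∑ l, α l) (B : ℝ)
    (v : EuclideanSpace ℂ ι) (l : ι) : fderiv ℂ (ext lam i α B) 0 v l = lam l * v l := by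
  have h1 : HasFDerivAt (ext lam i α B) (fderiv ℂ (ext lam i α B) 0) 0 :=
    (ext_diff lam i α B 0).hasFDerivAt
  have h2 := ((EuclideanSpace.proj l : EuclideanSpace ℂ ι →L[ℂ] ℂ).hasFDerivAt
    (x := ext lam i α B 0)).comp 0 h1
  have h3 : HasFDerivAt (fun z : EuclideanSpace ℂ ι => ∏ j, z j ^ α j)
      (0 : EuclideanSpace ℂ ι →L[ℂ] ℂ) 0 := by
    have : (fun z : EuclideanSpace ℂ ι => ∏ j, z j ^ α j) =O[𝓝 0]
        fun z : EuclideanSpace ℂ ι => ‖z - 0‖ ^ (∑ j, α j) := by
      apply Asymptotics.IsBigO.of_bound 1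
      filter_upwards with z
      rw [sub_zero, norm_pow, norm_norm, one_mul]
      exact prod_norm_le z α
    exact this.hasFDerivAt (by omega)
  have h4 : HasFDerivAt (fun z : EuclideanSpace ℂ ι => lam l * z l +
      if l = i then (B : ℂ) * ∏ j, z j ^ α j else 0)
      (lam l • (EuclideanSpace.proj l : EuclideanSpace ℂ ι →L[ℂ] ℂ)) 0 := by
    have h5 : HasFDerivAt (fun z : EuclideanSpace ℂ ι => lam l * z l)
        (lam l • (EuclideanSpace.proj l : EuclideanSpace ℂ ι →L[ℂ] ℂ)) 0 :=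
      ((EuclideanSpace.proj l : EuclideanSpace ℂ ι →L[ℂ] ℂ).hasFDerivAt).const_mul (lam l)
    by_cases h : l = i
    · simp only [h, if_true]
      rw [h] at h5
      have := h5.add (h3.const_mul (B : ℂ))
      refine this.congr_fderiv ?_
      simp
    · simp only [h, if_false, add_zero]
      exact h5
  have h5 := h2.unique h4
  have h6 := congrArg (fun L : EuclideanSpace ℂ ι →L[ℂ] ℂ => L v) h5
  simpa using h6

theorem ext_coef (lam : ι → ℂ) (i : ι) {α : ι → ℕ} {m : ℕ} (hα : ∑ l, α l = m) (hm : 2 ≤ m)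
    (B : ℝ) : coefm m (fun z => ext lam i α B z i) α = B := by
  set N := m + 1 with hN
  have hN0 : N ≠ 0 := by omega
  set ω : ℂ := Complex.exp (2 * Real.pi * Complex.I / N) with hω'
  have hω : IsPrimitiveRoot ω N := Complex.isPrimitiveRoot_exp N hN0
  have hω0 : ω ≠ 0 := hω.ne_zero hN0
  set c := coefm m (fun z => ext lam i α B z i) with hc
  have hav := torus_avg (m := m) (N := N) (by omega) hω c hα (fun _ => 1)
  have hpoly : ∀ θ : ι → Fin N, ∑ β ∈ Finset.piAntidiag Finset.univ m,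
      c β * ∏ l, (1 * ω ^ (θ l : ℕ)) ^ β l = B * ∏ l, ω ^ (α l * (θ l : ℕ)) := by
    intro θ
    have h1 := tc_eq_sum one_pos (comp_diff (ext_diff lam i α B).differentiableOn i) m
      (WithLp.toLp 2 fun l => ω ^ (θ l : ℕ))
    simp only [one_mul]
    rw [← hc] at h1
    rw [← h1]
    have h2 : (fun t : ℂ => ext lam i α B (t • (WithLp.toLp 2 fun l => ω ^ (θ l : ℕ))) i) =
        fun t : ℂ => t ^ 1 • (lam i * ω ^ (θ i : ℕ)) +
          t ^ m • ((B : ℂ) * ∏ l, ω ^ (α l * (θ l : ℕ))) := by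
      ext1 t
      simp only [ext, if_true, WithLp.ofLp_smul, Pi.smul_apply, smul_eq_mul, mul_pow,
        Finset.prod_mul_distrib]
      rw [Finset.prod_pow_eq_pow_sum, hα]
      have : ∀ x, (ω ^ (θ x : ℕ)) ^ α x = ω ^ (α x * (θ x : ℕ)) := by
        intro x; rw [← pow_mul, mul_comm]
      simp only [this]
      ring
    rw [h2, tc_add m (by fun_prop) (by fun_prop), tc_pow_smul, tc_pow_smul, if_neg (by omega),
      if_pos rfl, zero_add]
  simp only [hpoly] at hav
  have h3 : ∀ θ : ι → Fin N, (∏ l, (ω ^ (α l * (θ l : ℕ)))⁻¹) *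
      ((B : ℂ) * ∏ l, ω ^ (α l * (θ l : ℕ))) = B := by
    intro θ
    have : (∏ l, (ω ^ (α l * (θ l : ℕ)))⁻¹) * ∏ l, ω ^ (α l * (θ l : ℕ)) = 1 := by
      rw [← Finset.prod_mul_distrib]
      apply Finset.prod_eq_one
      intro l _
      exact inv_mul_cancel₀ (pow_ne_zero _ hω0)
    linear_combination (B : ℂ) * this
  simp only [h3, Finset.sum_const, one_pow, Finset.prod_const_one, mul_one, nsmul_eq_mul] at hav
  have h4 : ((Finset.univ : Finset (ι → Fin N)).card : ℂ) = (N : ℂ) ^ Fintype.card ι := by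
    simp
  rw [h4] at hav
  have h5 : (N : ℂ) ^ Fintype.card ι ≠ 0 := by
    apply pow_ne_zero
    exact_mod_cast hN0
  exact (mul_left_cancel₀ h5 hav).symm

end Family

section Main

variable {ι : Type} [Fintype ι] [DecidableEq ι]

/-- `IsPar lam i α L`: the equation that determines the parameter `L > 0` of the extremal
problem for the coefficient of `z^α` in the `i`-th component. -/
def IsPar (lam : ι → ℂ) (i : ι) (α : ι → ℕ) (L : ℝ) : Prop :=
  0 < L ∧ ∑ l, ((α l + if l = i then 1 else 0 : ℕ) : ℝ) * L /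
    (2 * (lam l).re + ((∑ j, α j : ℕ) - 1 : ℝ) * L) = 1

/-- The extremal squared moduli. -/
noncomputable def crit (lam : ι → ℂ) (i : ι) (α : ι → ℕ) (L : ℝ) (l : ι) : ℝ :=
  ((α l + if l = i then 1 else 0 : ℕ) : ℝ) * L / (2 * (lam l).re + ((∑ j, α j : ℕ) - 1 : ℝ) * L)

/-- The value of the maximum. -/
noncomputable def bnd (lam : ι → ℂ) (i : ι) (α : ι → ℕ) (L : ℝ) : ℝ :=
  L / ∏ l, Real.sqrt (crit lam i α L l) ^ (α l + if l = i then 1 else 0)

/-- The Taylor coefficient `q^i_α` of the map `h`: the coefficient of `z^α` in the homogeneous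
polynomial `(1/m!) D^m h_i(0)(z, ..., z)`, `m = |α|`. -/
noncomputable def coef (i : ι) (α : ι → ℕ)
    (h : EuclideanSpace ℂ ι → EuclideanSpace ℂ ι) : ℂ :=
  coefm (∑ l, α l) (fun z => h z i) α

theorem sum_b {i : ι} {α : ι → ℕ} :
    ∑ l, (α l + if l = i then 1 else 0) = (∑ l, α l) + 1 := by
  rw [Finset.sum_add_distrib]
  simp

theorem main {lam : ι → ℂ} (hlam : ∀ l, 0 < (lam l).re) {i : ι} {α : ι → ℕ} (hi : α i = 0)
    (hα : 2 ≤ ∑ l, α l) {L : ℝ} (hL : IsPar lam i α L) :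
    IsGreatest ((fun h => ‖coef i α h‖) '' fam lam) (bnd lam i α L) := by
  obtain ⟨hL0, hL1⟩ := hL
  set m := ∑ l, α l with hm
  have hm' : (2 : ℝ) ≤ m := by exact_mod_cast hα
  set b : ι → ℕ := fun l => α l + if l = i then 1 else 0 with hb
  set s := crit lam i α L with hs
  have hden : ∀ l, 0 < 2 * (lam l).re + ((m : ℝ) - 1) * L := fun l => by
    have := hlam l
    have h2 : 0 < ((m : ℝ) - 1) * L := mul_pos (by linarith) hL0
    linarith
  have hsl : ∀ l, s l * (2 * (lam l).re + (m - 1) * L) = b l * L := by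
    intro l
    rw [hs, crit, div_mul_cancel₀ _ (hden l).ne']
  have hs1 : ∑ l, s l = 1 := hL1
  have hs0 : ∀ l, 0 ≤ s l := by
    intro l
    rw [hs, crit]
    have := hden l
    positivity
  have hspos : ∀ l, b l ≠ 0 → 0 < s l := by
    intro l h
    have h1 : (0 : ℝ) < b l := by exact_mod_cast Nat.pos_of_ne_zero h
    rw [hs, crit]
    have := hden l
    positivity
  have hbsum : ∑ l, b l = m + 1 := sum_b
  have hQ : 0 < ∏ l, Real.sqrt (s l) ^ b l := by
    apply Finset.prod_pos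
    intro l _
    rcases Nat.eq_zero_or_pos (b l) with h | h
    · rw [h, pow_zero]; exact one_pos
    · have := hspos l h.ne'
      positivity
  have hprodsplit : ∀ t : ι → ℝ, ∏ l, t l ^ b l = t i * ∏ l, t l ^ α l := by
    intro t
    have : ∀ l, t l ^ b l = t l ^ α l * (if l = i then t l else 1) := by
      intro l
      simp only [hb]
      split_ifs <;> simp [pow_succ]
    simp only [this]
    rw [Finset.prod_mul_distrib, Finset.prod_ite_eq' _ _ _]
    simp [mul_comm]
  have hlams : ∑ l, (lam l).re * s l = L := by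
    have h1 : ∑ l, s l * (2 * (lam l).re + (m - 1) * L) = ∑ l, (b l : ℝ) * L :=
      Finset.sum_congr rfl fun l _ => hsl l
    have h2 : ∑ l, s l * (2 * (lam l).re + (m - 1) * L) =
        2 * ∑ l, (lam l).re * s l + (m - 1) * L * ∑ l, s l := by
      rw [Finset.mul_sum, Finset.mul_sum, ← Finset.sum_add_distrib]
      exact Finset.sum_congr rfl fun l _ => by ring
    have h3 : ∑ l, (b l : ℝ) * L = (m + 1) * L := by
      rw [← Finset.sum_mul]
      congr 1
      exact_mod_cast hbsum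
    rw [h2, h3, hs1] at h1
    linarith
  have hB0 : 0 ≤ bnd lam i α L := by
    rw [bnd]
    exact div_nonneg hL0.le hQ.le
  constructor
  · refine ⟨ext lam i α (bnd lam i α L), ⟨(ext_diff _ _ _ _).differentiableOn, ?_,
      ext_fderiv lam i hα _, ?_⟩, ?_⟩
    · ext l
      have : ∏ j, (0 : EuclideanSpace ℂ ι) j ^ α j = 0 := by
        obtain ⟨j, hj⟩ : ∃ j, α j ≠ 0 := by
          by_contra h
          push Not at h
          simp [h] at hm
          omega
        exact Finset.prod_eq_zero (Finset.mem_univ j) (by simp [hj])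
      simp only [ext]
      rw [this]
      simp
    · intro z hz hz0
      rw [mem_ball_zero_iff] at hz
      have hzp : 0 < ‖z‖ := norm_pos_iff.2 hz0
      have e1 : (inner ℂ z (ext lam i α (bnd lam i α L) z)).re =
          ∑ l, (lam l).re * ‖z l‖ ^ 2 +
            bnd lam i α L * ((starRingEnd ℂ) (z i) * ∏ j, z j ^ α j).re := by
        rw [inner_eq]
        have : ∀ l, (starRingEnd ℂ) (z l) * ext lam i α (bnd lam i α L) z l =
            (starRingEnd ℂ) (z l) * (lam l * z l) + if l = i then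
              ((bnd lam i α L : ℝ) : ℂ) * ((starRingEnd ℂ) (z l) * ∏ j, z j ^ α j) else 0 := by
          intro l
          simp only [ext]
          split_ifs <;> ring
        simp only [this]
        rw [Finset.sum_add_distrib, Finset.sum_ite_eq' _ _ _, if_pos (Finset.mem_univ i),
          Complex.add_re, Complex.re_ofReal_mul]
        congr 1
        have h2 := inner_diag_re (lam := lam) z (WithLp.toLp 2 fun l => lam l * z l) (fun l => rfl)
        rw [inner_eq] at h2
        exact h2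
      have e2 : -(‖z i‖ * ∏ j, ‖z j‖ ^ α j) ≤ ((starRingEnd ℂ) (z i) * ∏ j, z j ^ α j).re := by
        have := Complex.abs_re_le_norm ((starRingEnd ℂ) (z i) * ∏ j, z j ^ α j)
        rw [norm_mul, Complex.norm_conj, norm_prod] at this
        simp only [norm_pow] at this
        linarith [neg_abs_le ((starRingEnd ℂ) (z i) * ∏ j, z j ^ α j).re]
      have e3 := real_ineq (lam := fun l => (lam l).re) hlam hα hL0 hsl hs1 hbsum
        (t := fun l => ‖z l‖) (fun l => norm_nonneg _)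
      have e4 : Real.sqrt (∑ l, ‖z l‖ ^ 2) = ‖z‖ := by
        rw [← EuclideanSpace.norm_sq_eq, Real.sqrt_sq hzp.le]
      rw [e4, hprodsplit (fun l => ‖z l‖)] at e3
      have e5 : ‖z‖ ^ (m - 1) < 1 := pow_lt_one₀ hzp.le hz (by omega)
      have e6 : 0 < ∑ l, (lam l).re * ‖z l‖ ^ 2 := by
        obtain ⟨l, hl⟩ : ∃ l, z l ≠ 0 := by
          by_contra h
          push Not at h
          exact hz0 (by ext l; exact h l)
        have h1 : 0 < (lam l).re * ‖z l‖ ^ 2 := by
          have := hlam l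
          have := norm_pos_iff.2 hl
          positivity
        exact h1.trans_le (Finset.single_le_sum (f := fun l => (lam l).re * ‖z l‖ ^ 2)
          (fun l _ => by have := hlam l; positivity) (Finset.mem_univ l))
      have e7 : bnd lam i α L * (‖z i‖ * ∏ j, ‖z j‖ ^ α j) ≤
          (∑ l, (lam l).re * ‖z l‖ ^ 2) * ‖z‖ ^ (m - 1) := by
        rw [bnd, div_mul_eq_mul_div, div_le_iff₀ hQ]
        linarith
      have e8 : (∑ l, (lam l).re * ‖z l‖ ^ 2) * ‖z‖ ^ (m - 1) < ∑ l, (lam l).re * ‖z l‖ ^ 2 := by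
        nlinarith
      rw [e1]
      have e9 := mul_le_mul_of_nonneg_left e2 hB0
      linarith
    · simp only [coef]
      rw [ext_coef lam i hm.symm hα, Complex.norm_real, Real.norm_of_nonneg hB0]
  · rintro _ ⟨h, hh, rfl⟩
    simp only
    have ht : ∀ l, 0 ≤ Real.sqrt (s l) := fun l => Real.sqrt_nonneg _
    have ht1 : ∑ l, Real.sqrt (s l) ^ 2 = 1 := by
      rw [← hs1]
      exact Finset.sum_congr rfl fun l _ => Real.sq_sqrt (hs0 l)
    have key := coef_bound hh hm.symm hi hα ht ht1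
    have h2 : ∑ l, (lam l).re * Real.sqrt (s l) ^ 2 = L := by
      rw [← hlams]
      exact Finset.sum_congr rfl fun l _ => by rw [Real.sq_sqrt (hs0 l)]
    rw [h2, ← hprodsplit (fun l => Real.sqrt (s l))] at key
    rw [bnd, le_div_iff₀ hQ, mul_comm]
    exact key

/-- The parameter in the closed formula for the pure coefficients. -/
noncomputable def par (a b : ℝ) (k : ℕ) : ℝ :=
  2 * b / (b * k + a + Real.sqrt ((b * k + a) ^ 2 + 4 * (a - b) * b * (k - 1)))

/-- The closed formula for the pure coefficients. -/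
noncomputable def pureBound (a b : ℝ) (k : ℕ) : ℝ :=
  (b + (a - b) * par a b k) / (Real.sqrt (par a b k) * Real.sqrt (1 - par a b k) ^ k)

theorem par_spec {a b : ℝ} {k : ℕ} (ha : 0 < a) (hb : 0 < b) (hk : 2 ≤ k) :
    0 < par a b k ∧ par a b k < 1 ∧
      (a - b) * (k - 1) * par a b k ^ 2 + (b * k + a) * par a b k - b = 0 := by
  have hk' : (2 : ℝ) ≤ k := by exact_mod_cast hk
  have hdisc : 0 ≤ (b * k + a) ^ 2 + 4 * (a - b) * b * ((k : ℝ) - 1) := by
    have : (b * k + a) ^ 2 + 4 * (a - b) * b * ((k : ℝ) - 1) =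
        b ^ 2 * ((k : ℝ) - 2) ^ 2 + a ^ 2 + a * b * (6 * k - 4) := by ring
    rw [this]
    have : 0 ≤ a * b * (6 * (k : ℝ) - 4) := mul_nonneg (by positivity) (by linarith)
    positivity
  set c : ℝ := b * k + a with hc
  set d : ℝ := Real.sqrt (c ^ 2 + 4 * (a - b) * b * (k - 1)) with hd
  have hd0 : 0 ≤ d := Real.sqrt_nonneg _
  have hd2 : d ^ 2 = c ^ 2 + 4 * (a - b) * b * (k - 1) := Real.sq_sqrt hdisc
  have hb2 : 2 * b < c := by rw [hc]; nlinarith
  have hbd : 0 < c + d := by linarith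
  have hs : par a b k = 2 * b / (c + d) := rfl
  refine ⟨by rw [hs]; positivity, by rw [hs, div_lt_one hbd]; linarith, ?_⟩
  set s := par a b k with hs'
  have hsb : s * (c + d) = 2 * b := by rw [hs, div_mul_cancel₀ _ hbd.ne']
  have h1 : ((a - b) * (k - 1) * s ^ 2 + c * s - b) * (c + d) ^ 2 = 0 := by
    have : ((a - b) * (k - 1) * s ^ 2 + c * s - b) * (c + d) ^ 2 =
        (a - b) * (k - 1) * (s * (c + d)) ^ 2 + c * (s * (c + d)) * (c + d) -
          b * (c + d) ^ 2 := by ring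
    rw [this, hsb]
    nlinarith [hd2]
  exact (mul_eq_zero.1 h1).resolve_right (pow_ne_zero 2 hbd.ne')

theorem pure_case {lam : ι → ℂ} (hlam : ∀ l, 0 < (lam l).re) {i j : ι} (hij : i ≠ j) {k : ℕ}
    (hk : 2 ≤ k) :
    IsGreatest ((fun h => ‖coef i (Pi.single j k) h‖) '' fam lam)
      (pureBound (lam i).re (lam j).re k) := by
  have hk' : (2 : ℝ) ≤ k := by exact_mod_cast hk
  set a := (lam i).re with ha
  set b := (lam j).re with hb
  obtain ⟨p0, p1, p2⟩ := par_spec (hlam i) (hlam j) hk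
  rw [← ha, ← hb] at p0 p1 p2
  set p := par a b k with hp
  set L : ℝ := b + (a - b) * p with hLdef
  have ha0 : 0 < a := hlam i
  have hb0 : 0 < b := hlam j
  have hL0 : 0 < L := by
    have : L = b * (1 - p) + a * p := by rw [hLdef]; ring
    rw [this]
    have := mul_pos hb0 (sub_pos.2 p1)
    have := mul_pos ha0 p0
    linarith
  have hsum : ∑ l, (Pi.single j k : ι → ℕ) l = k := by simp
  have hk1 : 0 < ((k : ℝ) - 1) * L := mul_pos (by linarith) hL0
  have c1 : crit lam i (Pi.single j k) L i = p := by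
    rw [crit, hsum]
    simp only [if_true, ne_eq, hij, not_false_eq_true, Pi.single_eq_of_ne]
    rw [div_eq_iff (by rw [← ha]; linarith), ← ha]
    simp only [zero_add, Nat.cast_one, one_mul]
    rw [hLdef]
    linear_combination -p2
  have c2 : crit lam i (Pi.single j k) L j = 1 - p := by
    rw [crit, hsum]
    simp only [hij.symm, if_false, Pi.single_eq_same, add_zero]
    rw [div_eq_iff (by rw [← hb]; linarith), ← hb, hLdef]
    linear_combination p2
  have c3 : ∀ l, l ≠ i → l ≠ j → crit lam i (Pi.single j k) L l = 0 := by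
    intro l h1 h2
    rw [crit]
    simp [h1, h2]
  have hpair : ∀ f : ι → ℝ, (∀ l, l ≠ i → l ≠ j → f l = 0) → ∑ l, f l = f i + f j := by
    intro f hf
    rw [← Finset.sum_subset (Finset.subset_univ {i, j}), Finset.sum_pair hij]
    intro l _ hl
    simp only [Finset.mem_insert, Finset.mem_singleton, not_or] at hl
    exact hf l hl.1 hl.2
  have hpar : IsPar lam i (Pi.single j k) L := by
    refine ⟨hL0, ?_⟩
    have : ∑ l, crit lam i (Pi.single j k) L l = 1 := by
      rw [hpair _ c3, c1, c2]; ring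
    exact this
  have h1 := main hlam (i := i) (α := Pi.single j k) (by simp [hij]) (by rw [hsum]; exact hk) hpar
  have h2 : bnd lam i (Pi.single j k) L = pureBound a b k := by
    rw [bnd, pureBound]
    congr 1
    have h3 : ∀ l, l ≠ i → l ≠ j →
        Real.sqrt (crit lam i (Pi.single j k) L l) ^ ((Pi.single j k : ι → ℕ) l +
          if l = i then 1 else 0) = 1 := by
      intro l h4 h5
      simp [h4, h5]
    rw [← Finset.prod_subset (Finset.subset_univ {i, j}), Finset.prod_pair hij, c1, c2]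
    · simp [hij, hij.symm, ← hp]
    · intro l _ hl
      simp only [Finset.mem_insert, Finset.mem_singleton, not_or] at hl
      exact h3 l hl.1 hl.2
  rw [← h2]
  exact h1

theorem identity_case {i : ι} {α : ι → ℕ} (hi : α i = 0) (hα : 2 ≤ ∑ l, α l) :
    IsGreatest ((fun h => ‖coef i α h‖) '' fam (fun _ : ι => (1 : ℂ)))
      (Real.sqrt ((∑ l, α l : ℕ) + 1) ^ ((∑ l, α l) + 1) / ∏ l, Real.sqrt (α l) ^ α l) := by
  set m := ∑ l, α l with hm
  have hm' : (2 : ℝ) ≤ m := by exact_mod_cast hα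
  have hcr : ∀ l, crit (fun _ : ι => (1 : ℂ)) i α 1 l =
      ((α l + if l = i then 1 else 0 : ℕ) : ℝ) / (m + 1) := by
    intro l
    rw [crit, ← hm]
    congr 1
    · ring
    · simp; ring
  have hpar : IsPar (fun _ : ι => (1 : ℂ)) i α 1 := by
    refine ⟨one_pos, ?_⟩
    have : ∑ l, crit (fun _ : ι => (1 : ℂ)) i α 1 l = 1 := by
      simp only [hcr]
      rw [← Finset.sum_div]
      have h1 : ∑ l, ((α l + if l = i then 1 else 0 : ℕ) : ℝ) = m + 1 := by
        have := sum_b (i := i) (α := α)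
        rw [← hm] at this
        exact_mod_cast this
      rw [h1, div_self (by linarith)]
    exact this
  have h1 := main (lam := fun _ : ι => (1 : ℂ)) (fun _ => by simp) hi hα hpar
  have h2 : bnd (fun _ : ι => (1 : ℂ)) i α 1 =
      Real.sqrt ((m : ℕ) + 1) ^ (m + 1) / ∏ l, Real.sqrt (α l) ^ α l := by
    rw [bnd]
    simp only [hcr]
    have h3 : ∀ l, Real.sqrt (((α l + if l = i then 1 else 0 : ℕ) : ℝ) / (m + 1)) ^
        (α l + if l = i then 1 else 0) =
        (Real.sqrt (α l) ^ α l) / Real.sqrt (m + 1) ^ (α l + if l = i then 1 else 0) := by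
      intro l
      rw [Real.sqrt_div' _ (by linarith), div_pow]
      congr 1
      split_ifs with h
      · rw [h, hi]; simp
      · simp
    simp only [h3]
    rw [Finset.prod_div_distrib, Finset.prod_pow_eq_pow_sum, sum_b, ← hm, one_div_div]
  rw [← h2]
  exact h1

end Main

/-- Sharp bounds for all off-diagonal Taylor coefficients of the family `N_A` on the unit ball
of `ℂ^n`, for every `n` and every diagonal matrix `A`. -/
theorem result (n : ℕ) (lam : Fin n → ℂ) (hlam : ∀ l, 0 < (lam l).re) :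
    -- every `h` in `N_A` expands with the coefficients `coef`
    (∀ h ∈ fam lam, ∀ i : Fin n, ∀ z ∈ ball (0 : EuclideanSpace ℂ (Fin n)) 1,
      HasSum (fun m => ∑ β ∈ Finset.piAntidiag Finset.univ m, coef i β h * ∏ l, z l ^ β l)
        (h z i)) ∧
    -- all off-diagonal coefficients
    (∀ (i : Fin n) (α : Fin n → ℕ), α i = 0 → 2 ≤ ∑ l, α l →
      (∃! L : ℝ, IsPar lam i α L) ∧ ∀ L : ℝ, IsPar lam i α L →
        IsGreatest ((fun h => ‖coef i α h‖) '' fam lam) (bnd lam i α L)) ∧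
    -- closed formula for the off-diagonal pure coefficients
    (∀ i j : Fin n, i ≠ j → ∀ k : ℕ, 2 ≤ k →
      IsGreatest ((fun h => ‖coef i (Pi.single j k) h‖) '' fam lam)
        (pureBound (lam i).re (lam j).re k)) ∧
    -- closed formula for all off-diagonal coefficients for `A = I`
    (∀ (i : Fin n) (α : Fin n → ℕ), α i = 0 → 2 ≤ ∑ l, α l →
      IsGreatest ((fun h => ‖coef i α h‖) '' fam (fun _ : Fin n => (1 : ℂ)))
        (Real.sqrt ((∑ l, α l : ℕ) + 1) ^ ((∑ l, α l) + 1) / ∏ l, Real.sqrt (α l) ^ α l)) := by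
  refine ⟨?_, ?_, ?_, ?_⟩
  · intro h hh i z hz
    have h1 := hasSum_coef (comp_diff hh.1 i) hz
    refine h1.congr_fun ?_
    intro m
    apply Finset.sum_congr rfl
    intro β hβ
    rw [Finset.mem_piAntidiag] at hβ
    have h2 : ∑ l, β l = m := hβ.1
    subst h2
    rfl
  · intro i α hi hα
    refine ⟨?_, fun L hL => main hlam hi hα hL⟩
    exact exists_unique_par (lam := fun l => (lam l).re) hlam hα sum_b
  · intro i j hij k hk
    exact pure_case hlam hij hk
  · intro i α hi hα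
    exact identity_case hi hα

end Pool.Agent.Results.MP_eccde5_an.AllOffDiagonal
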